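import Pool.Agent.H8.AV3.Stmts7

/-!
# MTL: the main term, lower bound
-/

set_option autoImplicit false

namespace Pool.Agent.H57.AV3C

open Polynomial Matrix Pool.AVR Pool.AV3

theorem MTL_geo (u G : ℝ) (hu1 : u < 1) (hG : u = G * (1 - u)) (n : ℕ) :
    ∑ i ∈ Finset.range n, u ^ (i + 1) = G * (1 - u ^ n) := by
  have h1 : ∑ i ∈ Finset.range n, u ^ (i + 1) = u * ∑ i ∈ Finset.range n, u ^ i := by
    rw [Finset.mul_sum]
    exact Finset.sum_congr rfl fun i _ => by ring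
  have h2 : (∑ i ∈ Finset.range n, u ^ i) * (1 - u) = 1 - u ^ n := by
    have := geom_sum_mul u n
    linarith
  have h4 : 0 < 1 - u := by linarith
  have h5 : (∑ i ∈ Finset.range n, u ^ (i + 1)) * (1 - u) = G * (1 - u ^ n) * (1 - u) := by
    rw [h1, mul_assoc, h2]
    nth_rewrite 1 [hG]
    ring
  exact mul_right_cancel₀ h4.ne' h5

theorem mtl_thm (hGRX : GRXStmt) : MTLStmt := by
  intro F _ _ h2 ε hε
  obtain ⟨h00, h01, h10, h11⟩ := hGRX F
  have hq1 : 1 < Nat.card F := Finite.one_lt_card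
  set q : ℝ := (Nat.card F : ℝ) with hq
  have hq1' : (1 : ℝ) < q := by rw [hq]; exact_mod_cast hq1
  have hq0 : (0 : ℝ) < q := by linarith
  have hqa : (0 : ℝ) < q - 1 := by linarith
  have hqb : (0 : ℝ) < q ^ 2 - 1 := by nlinarith
  have hqc : (0 : ℝ) < q ^ 3 - 1 := by nlinarith [mul_pos hqa hqb]
  -- casts
  have hn1 : 1 ≤ Nat.card F := hq1.le
  have c1 : ((Nat.card F - 1 : ℕ) : ℝ) = q - 1 := by
    rw [Nat.cast_sub hn1]; simp [hq]
  have c2 : ((Nat.card F ^ 2 - 1 : ℕ) : ℝ) = q ^ 2 - 1 := by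
    rw [Nat.cast_sub (Nat.one_le_pow _ _ hn1)]; simp [hq]
  have c3 : ((Nat.card F ^ 2 - Nat.card F : ℕ) : ℝ) = q ^ 2 - q := by
    rw [Nat.cast_sub (by nlinarith)]; simp [hq]
  have c4 : ((Nat.card F ^ 3 - 1 : ℕ) : ℝ) = q ^ 3 - 1 := by
    rw [Nat.cast_sub (Nat.one_le_pow _ _ hn1)]; simp [hq]
  have c5 : ((Nat.card F ^ 3 - Nat.card F : ℕ) : ℝ) = q ^ 3 - q := by
    rw [Nat.cast_sub (by nlinarith [Nat.one_le_pow 2 _ hn1])]; simp [hq]
  have c6 : ((Nat.card F ^ 3 - Nat.card F ^ 2 : ℕ) : ℝ) = q ^ 3 - q ^ 2 := by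
    rw [Nat.cast_sub (Nat.pow_le_pow_right hn1 (by norm_num))]; simp [hq]
  set g : ℕ → ℕ → ℝ := fun α β =>
    1 / ((G3 (Pool.AV3.dv α β) : Set (Matrix (Fin 3) (Fin 3) F[X])).ncard : ℝ) with hg
  set u : ℝ := 1 / q ^ 2 with hu
  set G : ℝ := 1 / (q ^ 2 - 1) with hG
  have hu0 : 0 < u := by positivity
  have hu1 : u < 1 := by
    rw [hu, div_lt_one (by positivity)]; nlinarith
  have hGu : u = G * (1 - u) := by
    rw [hu, hG]; field_simp
  have hG0 : 0 < G := by rw [hG]; exact one_div_pos.2 hqb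
  set a : ℝ := 1 / ((q ^ 3 - 1) * (q ^ 3 - q) * (q ^ 3 - q ^ 2)) with ha
  set b : ℝ := 1 / ((q ^ 2 - 1) * (q ^ 2 - q) * (q - 1) * q ^ 2) with hb
  set c : ℝ := 1 / ((q - 1) ^ 3 * q ^ 3) with hc
  have b0 : (0 : ℝ) ≤ b := by
    have a1 : q ^ 2 - q = q * (q - 1) := by ring
    rw [hb, a1]; positivity
  have b1 : (0 : ℝ) ≤ c := by rw [hc]; positivity
  have e0 : g 0 0 = a := by
    rw [hg, ha]
    show 1 / (((G3 (Pool.AV3.dv 0 0) : Set (Matrix (Fin 3) (Fin 3) F[X])).ncard : ℕ) : ℝ) = _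
    rw [h00, Nat.cast_mul, Nat.cast_mul, c4, c5, c6]
  have e1 : ∀ i, g 0 (i + 1) = b * u ^ (i + 1) := by
    intro i
    rw [hg, hb]
    show 1 / (((G3 (Pool.AV3.dv 0 (i + 1)) : Set (Matrix (Fin 3) (Fin 3) F[X])).ncard : ℕ) : ℝ)
      = _
    rw [h01 (i + 1) (by omega), Nat.cast_mul, Nat.cast_mul, Nat.cast_mul, c1, c2, c3,
      Nat.cast_pow, ← hq]
    have a1 : q ^ 2 - q = q * (q - 1) := by ring
    rw [hu, a1, _root_.one_div_pow, ← pow_mul, pow_add]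
    field_simp
  have e2 : ∀ i, g (i + 1) 0 = b * u ^ (i + 1) := by
    intro i
    rw [hg, hb]
    show 1 / (((G3 (Pool.AV3.dv (i + 1) 0) : Set (Matrix (Fin 3) (Fin 3) F[X])).ncard : ℕ) : ℝ)
      = _
    rw [h10 (i + 1) (by omega), Nat.cast_mul, Nat.cast_mul, Nat.cast_mul, c1, c2, c3,
      Nat.cast_pow, ← hq]
    have a1 : q ^ 2 - q = q * (q - 1) := by ring
    rw [hu, a1, _root_.one_div_pow, ← pow_mul, pow_add]
    field_simp
  have e3 : ∀ i j, g (i + 1) (j + 1) = c * u ^ (i + 1) * u ^ (j + 1) := by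
    intro i j
    rw [hg, hc]
    show 1 / (((G3 (Pool.AV3.dv (i + 1) (j + 1)) :
      Set (Matrix (Fin 3) (Fin 3) F[X])).ncard : ℕ) : ℝ) = _
    rw [h11 (i + 1) (j + 1) (by omega) (by omega), Nat.cast_mul, Nat.cast_pow, c1,
      Nat.cast_pow, ← hq]
    rw [hu, _root_.one_div_pow, _root_.one_div_pow, ← pow_mul, ← pow_mul, pow_add, pow_add]
    field_simp
  have hfinal : (q - 1) * (a + 2 * (b * G) + c * G * G) * q ^ 8 =
      3 / ((1 - 1 / q) * (1 - 1 / q ^ 2) * rhoF F 1) := by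
    have hr : rhoF F 1 = (1 - 1 / q ^ 2) * (1 - 1 / q ^ 3) := by
      simp only [rhoF, ← hq]
    rw [hr, hG, ha, hb, hc]
    have a1 : q ^ 2 - q = q * (q - 1) := by ring
    have a2 : q ^ 3 - q = q * (q ^ 2 - 1) := by ring
    have a3 : q ^ 3 - q ^ 2 = q ^ 2 * (q - 1) := by ring
    have a4 : 1 - 1 / q = (q - 1) / q := by field_simp
    have a5 : 1 - 1 / q ^ 2 = (q ^ 2 - 1) / q ^ 2 := by field_simp
    have a6 : 1 - 1 / q ^ 3 = (q ^ 3 - 1) / q ^ 3 := by field_simp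
    rw [a1, a2, a3, a4, a5, a6]
    have n1 := hqa.ne'
    have n2 := hqb.ne'
    have n3 := hqc.ne'
    field_simp
    ring
  set M : ℝ := (q - 1) * q ^ 8 * (2 * (b * G) + 2 * (c * G * G)) with hM
  have hM0 : 0 ≤ M := by rw [hM]; positivity
  obtain ⟨A, hA⟩ := exists_pow_lt_of_lt_one (div_pos hε (by linarith : (0 : ℝ) < M + 1)) hu1
  refine ⟨A, fun n => ?_⟩
  set w : ℝ := u ^ A with hw
  have hw0 : 0 < w := by rw [hw]; positivity
  have hMw : M * w ≤ ε := by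
    rw [lt_div_iff₀ (by linarith : (0 : ℝ) < M + 1)] at hA
    nlinarith
  have hT := MTL_geo u G hu1 hGu A
  rw [← hw] at hT
  have hsum : ∑ α ∈ Finset.range (A + 1), ∑ β ∈ Finset.range (A + 1), g α β =
      a + 2 * (b * (G * (1 - w))) + c * (G * (1 - w)) * (G * (1 - w)) := by
    have s0 : ∑ α ∈ Finset.range (A + 1), ∑ β ∈ Finset.range (A + 1), g α β =
        (∑ i ∈ Finset.range A, ∑ j ∈ Finset.range A, g (i + 1) (j + 1) +
          ∑ i ∈ Finset.range A, g (i + 1) 0) + (∑ j ∈ Finset.range A, g 0 (j + 1) + g 0 0) := by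
      rw [Finset.sum_range_succ', Finset.sum_range_succ', ← Finset.sum_add_distrib]
      congr 1
      exact Finset.sum_congr rfl fun i _ => Finset.sum_range_succ' _ _
    have s1 : ∑ j ∈ Finset.range A, g 0 (j + 1) = b * (G * (1 - w)) := by
      rw [Finset.sum_congr rfl fun i _ => e1 i, ← Finset.mul_sum, hT]
    have s2 : ∑ j ∈ Finset.range A, g (j + 1) 0 = b * (G * (1 - w)) := by
      rw [Finset.sum_congr rfl fun i _ => e2 i, ← Finset.mul_sum, hT]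
    have s3 : ∑ i ∈ Finset.range A, ∑ j ∈ Finset.range A, g (i + 1) (j + 1) =
        c * (G * (1 - w)) * (G * (1 - w)) := by
      have t1 : ∀ i ∈ Finset.range A, ∑ j ∈ Finset.range A, g (i + 1) (j + 1) =
          c * u ^ (i + 1) * (G * (1 - w)) := by
        intro i _
        rw [Finset.sum_congr rfl fun j _ => e3 i j, ← Finset.mul_sum, hT]
      rw [Finset.sum_congr rfl t1, ← Finset.sum_mul, ← Finset.mul_sum, hT]
    rw [s0, s1, s2, s3, e0]
    ring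
  have hpow : q ^ (12 * n + 11) = q ^ 8 * q ^ (12 * n + 3) := by
    rw [← pow_add]; congr 1; omega
  rw [hpow]
  have hp : 0 < q ^ (12 * n + 3) := by positivity
  have hkey : 3 / ((1 - 1 / q) * (1 - 1 / q ^ 2) * rhoF F 1) - ε ≤
      (q - 1) * (∑ α ∈ Finset.range (A + 1), ∑ β ∈ Finset.range (A + 1), g α β) * q ^ 8 := by
    rw [← hfinal, hsum]
    have h3 : (q - 1) * (a + 2 * (b * G) + c * G * G) * q ^ 8 -
        (q - 1) * (a + 2 * (b * (G * (1 - w))) + c * (G * (1 - w)) * (G * (1 - w))) * q ^ 8 =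
        M * w - (q - 1) * q ^ 8 * (c * G * G) * w ^ 2 := by
      rw [hM]; ring
    have h4 : 0 ≤ (q - 1) * q ^ 8 * (c * G * G) * w ^ 2 := by positivity
    linarith
  calc (3 / ((1 - 1 / q) * (1 - 1 / q ^ 2) * rhoF F 1) - ε) * q ^ (12 * n + 3)
      ≤ ((q - 1) * (∑ α ∈ Finset.range (A + 1), ∑ β ∈ Finset.range (A + 1), g α β) * q ^ 8) *
        q ^ (12 * n + 3) := mul_le_mul_of_nonneg_right hkey hp.le
    _ = (q - 1) * (∑ α ∈ Finset.range (A + 1), ∑ β ∈ Finset.range (A + 1), g α β) *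
        (q ^ 8 * q ^ (12 * n + 3)) := by ring

end Pool.Agent.H57.AV3C
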