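import Pool.Agent.H8.AV3.Stmts7
import Pool.Agent.H31.AV3.GRC

/-!
# GRX: the orders of the groups `G3`
-/

set_option autoImplicit false

namespace Pool.Agent.H57.AV3C

open Polynomial Matrix Pool.AVR Pool.AV3 Pool.AV3.GRC

theorem le_card {T A : Type} [Finite T] (S : Set A) (f : T → A)
    (h : ∀ a ∈ S, ∃ t, f t = a) : S.ncard ≤ Nat.card T := by
  have h1 : S ⊆ f '' Set.univ := fun a ha => by
    obtain ⟨t, ht⟩ := h a ha
    exact ⟨t, Set.mem_univ t, ht⟩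
  refine (Set.ncard_le_ncard h1 (Set.toFinite _)).trans ?_
  rw [← Set.ncard_univ T]
  exact Set.ncard_image_le Set.finite_univ

section

variable {F : Type} [Field F]

theorem eq_zero_of_neg {p : F[X]} {d : ℤ} (h : p ≠ 0 → ((p.natDegree : ℕ) : ℤ) ≤ d)
    (hd : d < 0) : p = 0 := by
  by_contra h0
  have := h h0
  omega

theorem eq_C_of_nonpos {p : F[X]} {d : ℤ} (h : p ≠ 0 → ((p.natDegree : ℕ) : ℤ) ≤ d)
    (hd : d ≤ 0) : p = C (p.coeff 0) := by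
  by_cases h0 : p = 0
  · simp [h0]
  · have h1 := h h0
    have h2 : p.natDegree ≤ 0 := by omega
    exact Polynomial.eq_C_of_natDegree_le_zero h2

theorem mem_P {p : F[X]} {d : ℤ} {m : ℕ} (h : p ≠ 0 → ((p.natDegree : ℕ) : ℤ) ≤ d)
    (hd : d ≤ (m : ℤ)) : p ∈ Polynomial.degreeLT F (m + 1) := by
  rw [Polynomial.mem_degreeLT]
  by_cases h0 : p = 0
  · rw [h0, Polynomial.degree_zero]
    exact WithBot.bot_lt_coe _
  · have h1 := h h0
    rw [← Polynomial.natDegree_lt_iff_degree_lt h0]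
    omega

theorem P_finite [Finite F] (m : ℕ) : Finite (P F m) :=
  Finite.of_equiv _ (Polynomial.degreeLTEquiv F (m + 1)).toEquiv.symm

theorem exGL2 {a b c d : F} (h : a * d - b * c ≠ 0) : ∃ g : GL (Fin 2) F,
    (g : Matrix (Fin 2) (Fin 2) F) 0 0 = a ∧ (g : Matrix (Fin 2) (Fin 2) F) 0 1 = b ∧
    (g : Matrix (Fin 2) (Fin 2) F) 1 0 = c ∧ (g : Matrix (Fin 2) (Fin 2) F) 1 1 = d := by
  have h1 : IsUnit (!![a, b; c, d] : Matrix (Fin 2) (Fin 2) F) := by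
    rw [Matrix.isUnit_iff_isUnit_det, Matrix.det_fin_two_of]
    exact isUnit_iff_ne_zero.2 h
  refine ⟨h1.unit, ?_, ?_, ?_, ?_⟩ <;> rw [IsUnit.unit_spec] <;> rfl

theorem ext3 {A : Type} {g h : Matrix (Fin 3) (Fin 3) A} (h00 : g 0 0 = h 0 0)
    (h01 : g 0 1 = h 0 1) (h02 : g 0 2 = h 0 2) (h10 : g 1 0 = h 1 0) (h11 : g 1 1 = h 1 1)
    (h12 : g 1 2 = h 1 2) (h20 : g 2 0 = h 2 0) (h21 : g 2 1 = h 2 1) (h22 : g 2 2 = h 2 2) :
    g = h := by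
  ext i j
  fin_cases i <;> fin_cases j <;> assumption

theorem up0 [Finite F] : (G3 (dv 0 0) : Set (Matrix (Fin 3) (Fin 3) F[X])).ncard ≤
    (Nat.card F ^ 3 - 1) * (Nat.card F ^ 3 - Nat.card F) *
    (Nat.card F ^ 3 - Nat.card F ^ 2) := by
  have : Fintype F := Fintype.ofFinite F
  have hc : Nat.card (GL (Fin 3) F) = (Nat.card F ^ 3 - 1) * (Nat.card F ^ 3 - Nat.card F) *
      (Nat.card F ^ 3 - Nat.card F ^ 2) := by
    rw [Matrix.card_GL_field, Fin.prod_univ_three, ← Nat.card_eq_fintype_card]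
    simp
  rw [← hc]
  refine le_card _ (fun g : GL (Fin 3) F => (g : Matrix (Fin 3) (Fin 3) F).map C) ?_
  intro g hg
  have hC : ∀ i j, g i j = C ((g i j).coeff 0) := fun i j =>
    eq_C_of_nonpos (hg.2 i j) (by fin_cases i <;> fin_cases j <;> simp [Pool.AV3.dv])
  have h1 : g = (Matrix.of fun i j => (g i j).coeff 0).map C := by
    ext1 i j
    exact hC i j
  have h2 : IsUnit (Matrix.of fun i j => (g i j).coeff 0 : Matrix (Fin 3) (Fin 3) F) := by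
    rw [Matrix.isUnit_iff_isUnit_det]
    have h3 := hg.1
    rw [h1] at h3
    have h4 := RingHom.map_det (C : F →+* F[X])
      (Matrix.of fun i j => (g i j).coeff 0 : Matrix (Fin 3) (Fin 3) F)
    have h5 : ((C : F →+* F[X]).mapMatrix
      (Matrix.of fun i j => (g i j).coeff 0 : Matrix (Fin 3) (Fin 3) F)) =
      (Matrix.of fun i j => (g i j).coeff 0 : Matrix (Fin 3) (Fin 3) F).map C := rfl
    rw [h5] at h4
    rw [← h4] at h3
    exact Polynomial.isUnit_C.1 h3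
  refine ⟨h2.unit, ?_⟩
  show (h2.unit : Matrix (Fin 3) (Fin 3) F).map C = g
  rw [IsUnit.unit_spec]
  exact h1.symm

theorem upA [Finite F] (m : ℕ) (hm : 1 ≤ m) :
    (G3 (dv 0 m) : Set (Matrix (Fin 3) (Fin 3) F[X])).ncard ≤
    (Nat.card F ^ 2 - 1) * (Nat.card F ^ 2 - Nat.card F) *
      ((Nat.card F - 1) * Nat.card F ^ (2 * m + 2)) := by
  have := P_finite (F := F) m
  have : Finite (GL (Fin 2) F) := by
    have : Fintype F := Fintype.ofFinite F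
    infer_instance
  rw [← T_card]
  refine le_card _ (mA m) ?_
  intro g hg
  have h00 : g 0 0 = C ((g 0 0).coeff 0) := eq_C_of_nonpos (hg.2 0 0) (by simp [Pool.AV3.dv])
  have h01 : g 0 1 = C ((g 0 1).coeff 0) := eq_C_of_nonpos (hg.2 0 1) (by simp [Pool.AV3.dv])
  have h10 : g 1 0 = C ((g 1 0).coeff 0) := eq_C_of_nonpos (hg.2 1 0) (by simp [Pool.AV3.dv])
  have h11 : g 1 1 = C ((g 1 1).coeff 0) := eq_C_of_nonpos (hg.2 1 1) (by simp [Pool.AV3.dv])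
  have h22 : g 2 2 = C ((g 2 2).coeff 0) := eq_C_of_nonpos (hg.2 2 2) (by simp [Pool.AV3.dv])
  have h20 : g 2 0 = 0 := eq_zero_of_neg (hg.2 2 0) (by simp [Pool.AV3.dv]; omega)
  have h21 : g 2 1 = 0 := eq_zero_of_neg (hg.2 2 1) (by simp [Pool.AV3.dv]; omega)
  have h02 : g 0 2 ∈ Polynomial.degreeLT F (m + 1) := mem_P (hg.2 0 2) (by simp [Pool.AV3.dv])
  have h12 : g 1 2 ∈ Polynomial.degreeLT F (m + 1) := mem_P (hg.2 1 2) (by simp [Pool.AV3.dv])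
  have hd : g.det = C (((g 0 0).coeff 0 * (g 1 1).coeff 0 - (g 0 1).coeff 0 * (g 1 0).coeff 0) *
      (g 2 2).coeff 0) := by
    rw [Matrix.det_fin_three, h20, h21, C_mul, C_sub, C_mul, C_mul, ← h00, ← h01, ← h10, ← h11,
      ← h22]
    ring
  have hu := hg.1
  rw [hd, Polynomial.isUnit_C, IsUnit.mul_iff] at hu
  obtain ⟨e, he0, he1, he2, he3⟩ := exGL2 (isUnit_iff_ne_zero.1 hu.1)
  refine ⟨(e, hu.2.unit, ⟨g 0 2, h02⟩, ⟨g 1 2, h12⟩), ?_⟩
  refine ext3 ?_ ?_ rfl ?_ ?_ rfl ?_ ?_ ?_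
  · show C ((e : Matrix (Fin 2) (Fin 2) F) 0 0) = g 0 0
    rw [he0, ← h00]
  · show C ((e : Matrix (Fin 2) (Fin 2) F) 0 1) = g 0 1
    rw [he1, ← h01]
  · show C ((e : Matrix (Fin 2) (Fin 2) F) 1 0) = g 1 0
    rw [he2, ← h10]
  · show C ((e : Matrix (Fin 2) (Fin 2) F) 1 1) = g 1 1
    rw [he3, ← h11]
  · show (0 : F[X]) = g 2 0
    rw [h20]
  · show (0 : F[X]) = g 2 1
    rw [h21]
  · show C (hu.2.unit : F) = g 2 2
    rw [IsUnit.unit_spec, ← h22]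

theorem upB [Finite F] (m : ℕ) (hm : 1 ≤ m) :
    (G3 (dv m 0) : Set (Matrix (Fin 3) (Fin 3) F[X])).ncard ≤
    (Nat.card F ^ 2 - 1) * (Nat.card F ^ 2 - Nat.card F) *
      ((Nat.card F - 1) * Nat.card F ^ (2 * m + 2)) := by
  have := P_finite (F := F) m
  have : Finite (GL (Fin 2) F) := by
    have : Fintype F := Fintype.ofFinite F
    infer_instance
  rw [← T_card]
  refine le_card _ (mB m) ?_
  intro g hg
  have h00 : g 0 0 = C ((g 0 0).coeff 0) := eq_C_of_nonpos (hg.2 0 0) (by simp [Pool.AV3.dv])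
  have h12 : g 1 2 = C ((g 1 2).coeff 0) := eq_C_of_nonpos (hg.2 1 2) (by simp [Pool.AV3.dv])
  have h21 : g 2 1 = C ((g 2 1).coeff 0) := eq_C_of_nonpos (hg.2 2 1) (by simp [Pool.AV3.dv])
  have h11 : g 1 1 = C ((g 1 1).coeff 0) := eq_C_of_nonpos (hg.2 1 1) (by simp [Pool.AV3.dv])
  have h22 : g 2 2 = C ((g 2 2).coeff 0) := eq_C_of_nonpos (hg.2 2 2) (by simp [Pool.AV3.dv])
  have h20 : g 2 0 = 0 := eq_zero_of_neg (hg.2 2 0) (by simp [Pool.AV3.dv]; omega)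
  have h10 : g 1 0 = 0 := eq_zero_of_neg (hg.2 1 0) (by simp [Pool.AV3.dv]; omega)
  have h02 : g 0 2 ∈ Polynomial.degreeLT F (m + 1) := mem_P (hg.2 0 2) (by simp [Pool.AV3.dv])
  have h01 : g 0 1 ∈ Polynomial.degreeLT F (m + 1) := mem_P (hg.2 0 1) (by simp [Pool.AV3.dv])
  have hd : g.det = C (((g 1 1).coeff 0 * (g 2 2).coeff 0 - (g 1 2).coeff 0 * (g 2 1).coeff 0) *
      (g 0 0).coeff 0) := by
    rw [Matrix.det_fin_three, h20, h10, C_mul, C_sub, C_mul, C_mul, ← h00, ← h12, ← h21, ← h11,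
      ← h22]
    ring
  have hu := hg.1
  rw [hd, Polynomial.isUnit_C, IsUnit.mul_iff] at hu
  obtain ⟨e, he0, he1, he2, he3⟩ := exGL2 (isUnit_iff_ne_zero.1 hu.1)
  refine ⟨(e, hu.2.unit, ⟨g 0 1, h01⟩, ⟨g 0 2, h02⟩), ?_⟩
  refine ext3 ?_ rfl rfl ?_ ?_ ?_ ?_ ?_ ?_
  · show C (hu.2.unit : F) = g 0 0
    rw [IsUnit.unit_spec, ← h00]
  · show (0 : F[X]) = g 1 0
    rw [h10]
  · show C ((e : Matrix (Fin 2) (Fin 2) F) 0 0) = g 1 1
    rw [he0, ← h11]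
  · show C ((e : Matrix (Fin 2) (Fin 2) F) 0 1) = g 1 2
    rw [he1, ← h12]
  · show (0 : F[X]) = g 2 0
    rw [h20]
  · show C ((e : Matrix (Fin 2) (Fin 2) F) 1 0) = g 2 1
    rw [he2, ← h21]
  · show C ((e : Matrix (Fin 2) (Fin 2) F) 1 1) = g 2 2
    rw [he3, ← h22]

theorem upC [Finite F] (α β : ℕ) (ha : 1 ≤ α) (hb : 1 ≤ β) :
    (G3 (dv α β) : Set (Matrix (Fin 3) (Fin 3) F[X])).ncard ≤
    (Nat.card F - 1) ^ 3 * Nat.card F ^ (2 * α + 2 * β + 3) := by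
  have := P_finite (F := F) α
  have := P_finite (F := F) β
  have := P_finite (F := F) (α + β)
  rw [← TC_card]
  refine le_card _ (mC α β) ?_
  intro g hg
  have h00 : g 0 0 = C ((g 0 0).coeff 0) := eq_C_of_nonpos (hg.2 0 0) (by simp [Pool.AV3.dv])
  have h11 : g 1 1 = C ((g 1 1).coeff 0) := eq_C_of_nonpos (hg.2 1 1) (by simp [Pool.AV3.dv])
  have h22 : g 2 2 = C ((g 2 2).coeff 0) := eq_C_of_nonpos (hg.2 2 2) (by simp [Pool.AV3.dv])
  have h10 : g 1 0 = 0 := eq_zero_of_neg (hg.2 1 0) (by simp [Pool.AV3.dv]; omega)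
  have h20 : g 2 0 = 0 := eq_zero_of_neg (hg.2 2 0) (by simp [Pool.AV3.dv]; omega)
  have h21 : g 2 1 = 0 := eq_zero_of_neg (hg.2 2 1) (by simp [Pool.AV3.dv]; omega)
  have h01 : g 0 1 ∈ Polynomial.degreeLT F (α + 1) := mem_P (hg.2 0 1) (by simp [Pool.AV3.dv])
  have h12 : g 1 2 ∈ Polynomial.degreeLT F (β + 1) := mem_P (hg.2 1 2) (by simp [Pool.AV3.dv])
  have h02 : g 0 2 ∈ Polynomial.degreeLT F (α + β + 1) := mem_P (hg.2 0 2) (by simp [Pool.AV3.dv])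
  have hd : g.det = C ((g 0 0).coeff 0 * (g 1 1).coeff 0 * (g 2 2).coeff 0) := by
    rw [Matrix.det_fin_three, h20, h10, h21, C_mul, C_mul, ← h00, ← h11, ← h22]
    ring
  have hu := hg.1
  rw [hd, Polynomial.isUnit_C, IsUnit.mul_iff, IsUnit.mul_iff] at hu
  refine ⟨((hu.1.1.unit, hu.1.2.unit, hu.2.unit), ⟨g 0 1, h01⟩, ⟨g 1 2, h12⟩, ⟨g 0 2, h02⟩), ?_⟩
  refine ext3 ?_ rfl rfl ?_ ?_ rfl ?_ ?_ ?_
  · show C (hu.1.1.unit : F) = g 0 0
    rw [IsUnit.unit_spec, ← h00]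
  · show (0 : F[X]) = g 1 0
    rw [h10]
  · show C (hu.1.2.unit : F) = g 1 1
    rw [IsUnit.unit_spec, ← h11]
  · show (0 : F[X]) = g 2 0
    rw [h20]
  · show (0 : F[X]) = g 2 1
    rw [h21]
  · show C (hu.2.unit : F) = g 2 2
    rw [IsUnit.unit_spec, ← h22]

end

theorem grx_thm : GRXStmt := by
  intro F _ _
  exact ⟨le_antisymm up0 case0, fun m hm => le_antisymm (upA m hm) (caseA m hm),
    fun m hm => le_antisymm (upB m hm) (caseB m hm),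
    fun α β ha hb => le_antisymm (upC α β ha hb) (caseC α β)⟩

end Pool.Agent.H57.AV3C
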